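import Mathlib

/-! # The numerical inequality (D) -/

namespace Pool.H78.Fac

open Finset Polynomial

namespace NumericA

lemma le_exp_of_log {b e : ℝ} (hb : 0 < b) (h : Real.log b ≤ e) : b ≤ Real.exp e := by
  rw [← Real.exp_log hb]
  exact Real.exp_le_exp.2 h

lemma log_fact_le (n : ℕ) (_hn : 1 ≤ n) : Real.log (n.factorial : ℝ) ≤ n * Real.log n := by
  rw [← Real.log_pow]
  apply Real.log_le_log
  · exact_mod_cast Nat.factorial_pos n
  · exact_mod_cast Nat.factorial_le_pow n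

lemma le_log_fact (n : ℕ) (hn : 1 ≤ n) : n * Real.log n - n ≤ Real.log (n.factorial : ℝ) := by
  have h := Real.pow_div_factorial_le_exp (n : ℝ) (by positivity) n
  have hn0 : (0 : ℝ) < n := by exact_mod_cast hn
  have hf : (0 : ℝ) < (n.factorial : ℝ) := by exact_mod_cast Nat.factorial_pos n
  have h1 := Real.log_le_log (by positivity) h
  rw [Real.log_exp, Real.log_div (by positivity) hf.ne', Real.log_pow] at h1
  linarith

/-- Facts that hold for all large `X`. -/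
lemma large (M : ℝ) : ∃ X0 : ℕ, ∀ X : ℕ, X0 ≤ X → 1 ≤ X ∧ M ≤ Real.log X ∧
    Real.log X ≤ (X : ℝ) ^ (1 / 6 : ℝ) ∧ 2 ≤ (X : ℝ) ^ (1 / 6 : ℝ) := by
  have h1 : ∀ᶠ x : ℝ in Filter.atTop, M ≤ Real.log x :=
    Real.tendsto_log_atTop.eventually_ge_atTop M
  have h2 : ∀ᶠ x : ℝ in Filter.atTop, Real.log x ≤ x ^ (1 / 6 : ℝ) := by
    have h3 := (isLittleO_log_rpow_atTop (by norm_num : (0 : ℝ) < 1 / 6)).bound
      (by norm_num : (0 : ℝ) < 1)
    filter_upwards [h3, Filter.eventually_ge_atTop (1 : ℝ)] with x hx hx1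
    rw [one_mul, Real.norm_eq_abs, Real.norm_eq_abs,
      abs_of_nonneg (Real.log_nonneg hx1), abs_of_nonneg (by positivity)] at hx
    exact hx
  have h4 : ∀ᶠ x : ℝ in Filter.atTop, 2 ≤ x ^ (1 / 6 : ℝ) :=
    (tendsto_rpow_atTop (by norm_num : (0 : ℝ) < 1 / 6)).eventually_ge_atTop 2
  have h5 := tendsto_natCast_atTop_atTop (R := ℝ) |>.eventually (h1.and (h2.and h4))
  obtain ⟨N, hN⟩ := Filter.eventually_atTop.1 h5
  refine ⟨max N 1, fun X hX => ?_⟩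
  obtain ⟨a, b, c⟩ := hN X (le_trans (le_max_left _ _) hX)
  exact ⟨le_trans (le_max_right _ _) hX, a, b, c⟩

lemma log_two_le : Real.log 2 ≤ 1 := by
  have := Real.log_two_lt_d9
  linarith

lemma log_21_le : Real.log 21 ≤ 7 / 2 := by
  have e2 : Real.log 21 ≤ Real.log (2 ^ 5) := Real.log_le_log (by norm_num) (by norm_num)
  rw [Real.log_pow] at e2
  have := Real.log_two_lt_d9
  push_cast at e2
  linarith

lemma log_10_le : Real.log 10 ≤ 3 := by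
  have e2 : Real.log 10 ≤ Real.log (2 ^ 4) := Real.log_le_log (by norm_num) (by norm_num)
  rw [Real.log_pow] at e2
  have := Real.log_two_lt_d9
  push_cast at e2
  linarith

lemma log_4_le : Real.log 4 ≤ 3 / 2 := by
  have e3 : Real.log 4 = 2 * Real.log 2 := by
    rw [show (4 : ℝ) = 2 ^ 2 by norm_num, Real.log_pow]; push_cast; ring
  have := Real.log_two_lt_d9
  linarith

lemma exp_neg_one_lt : Real.exp (-1) < 1 / 2 := by
  rw [Real.exp_neg, ← one_div]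
  apply one_div_lt_one_div_of_lt (by norm_num)
  have := Real.exp_one_gt_d9
  linarith

lemma alg1 {e y ρ ln l x : ℝ} (he : e ≤ 21 / 25 * y) (hρ : 0 ≤ ρ) (hln : 0 ≤ ln)
    (hll : ln ≤ l) (hy : 0 ≤ y) (hyx : y ≤ x) :
    e * (2 * ρ + ln) ≤ 21 / 25 * (y * l) + 2 * (ρ * x) := by
  have e1 : e * (2 * ρ + ln) ≤ 21 / 25 * y * (2 * ρ + ln) :=
    mul_le_mul_of_nonneg_right he (by linarith)
  have e2 : y * ln ≤ y * l := mul_le_mul_of_nonneg_left hll hy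
  have e3 : ρ * y ≤ ρ * x := mul_le_mul_of_nonneg_left hyx hρ
  have e4 : 0 ≤ ρ * y := mul_nonneg hρ hy
  have e5 : 21 / 25 * y * (2 * ρ + ln) = 42 / 25 * (ρ * y) + 21 / 25 * (y * ln) := by ring
  linarith

lemma fac1 (r n e : ℕ) {y l x : ℝ} (hr : 1 ≤ r) (hn : 1 ≤ n) (hy : 0 ≤ y) (hyx : y ≤ x)
    (hlog : Real.log n ≤ l) (he : (e : ℝ) ≤ 21 / 25 * y) :
    ((r : ℝ) ^ 2 * n) ^ e ≤ Real.exp (21 / 25 * (y * l) + 2 * (Real.log r * x)) := by
  have hr0 : (0 : ℝ) < r := by exact_mod_cast hr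
  have hn0 : (0 : ℝ) < n := by exact_mod_cast hn
  apply le_exp_of_log (by positivity)
  rw [Real.log_pow, Real.log_mul (by positivity) hn0.ne', Real.log_pow]
  push_cast
  exact alg1 he (Real.log_nonneg (by exact_mod_cast hr))
    (Real.log_nonneg (by exact_mod_cast hn)) hlog hy hyx

lemma fac2 (n h : ℕ) {l x : ℝ} (hn : 1 ≤ n) (hlog : Real.log n ≤ l) (hhl : (h : ℝ) * l ≤ x) :
    (n : ℝ) ^ h ≤ Real.exp x := by
  have hn0 : (0 : ℝ) < n := by exact_mod_cast hn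
  apply le_exp_of_log (by positivity)
  rw [Real.log_pow]
  exact (mul_le_mul_of_nonneg_left hlog (Nat.cast_nonneg h)).trans hhl

lemma fac3 (h s : ℕ) {R l x : ℝ} (hR : 1 ≤ R) (hh : 1 ≤ h) (hx : 0 < x)
    (hl : l = Real.log x) (hlh : Real.log h ≤ l / 6) (hl0 : 0 ≤ l)
    (hshx : (s : ℝ) * h ≤ x) (hsx : (s : ℝ) ≤ x) (hsl : (s : ℝ) * l ≤ 2 * x) :
    (2 ^ h * (R * h * x)) ^ s ≤ Real.exp ((5 + Real.log R) * x) := by
  have hh0 : (0 : ℝ) < h := by exact_mod_cast hh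
  have hR0 : 0 < R := by linarith
  have hs0 : (0 : ℝ) ≤ s := Nat.cast_nonneg s
  apply le_exp_of_log (by positivity)
  rw [Real.log_pow, Real.log_mul (by positivity) (by positivity), Real.log_pow,
    Real.log_mul (by positivity) hx.ne', Real.log_mul hR0.ne' hh0.ne', ← hl]
  have e1 : (s : ℝ) * h * Real.log 2 ≤ (s : ℝ) * h * 1 :=
    mul_le_mul_of_nonneg_left log_two_le (by positivity)
  have e2 : (s : ℝ) * Real.log R ≤ x * Real.log R :=
    mul_le_mul_of_nonneg_right hsx (Real.log_nonneg hR)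
  have e3 : (s : ℝ) * Real.log h ≤ s * (l / 6) := mul_le_mul_of_nonneg_left hlh hs0
  have e4 : 0 ≤ (s : ℝ) * l := mul_nonneg hs0 hl0
  have e5 : (s : ℝ) * (h * Real.log 2 + (Real.log R + Real.log h + l)) =
    (s : ℝ) * h * Real.log 2 + s * Real.log R + s * Real.log h + s * l := by ring
  have e6 : (5 + Real.log R) * x = 5 * x + x * Real.log R := by ring
  rw [e5, e6]
  linarith

lemma fac4 (u : ℕ) {x : ℝ} (hu : 4 * (u : ℝ) ≤ x) : 4 * (u : ℝ) + 1 ≤ Real.exp x :=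
  (Real.add_one_le_exp (4 * (u : ℝ))).trans (Real.exp_le_exp.2 hu)

lemma alg5 {t y q lh l x hl2 l21 : ℝ} (ht : t ≤ 4 / 5 * y) (hq : 0 ≤ q)
    (hlh : lh ≤ l / 6) (hlh0 : 0 ≤ lh) (hy : 0 ≤ y) (hyx : y ≤ x) (h1 : hl2 ≤ x)
    (h21 : l21 ≤ 7 / 2) (hx1 : 1 ≤ x) :
    2 * (l21 + hl2) + t * (q + lh) ≤ 2 / 15 * (y * l) + (9 + q) * x := by
  have e1 : t * (q + lh) ≤ 4 / 5 * y * (q + lh) :=
    mul_le_mul_of_nonneg_right ht (by linarith)
  have e2 : y * lh ≤ y * (l / 6) := mul_le_mul_of_nonneg_left hlh hy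
  have e3 : q * y ≤ q * x := mul_le_mul_of_nonneg_left hyx hq
  have e4 : 0 ≤ q * y := mul_nonneg hq hy
  have e5 : 4 / 5 * y * (q + lh) = 4 / 5 * (q * y) + 4 / 5 * (y * lh) := by ring
  have e6 : y * (l / 6) = 1 / 6 * (y * l) := by ring
  have e7 : (9 + q) * x = 9 * x + q * x := by ring
  rw [e6] at e2
  rw [e7]
  linarith

lemma fac5 (h t : ℕ) {R y l x : ℝ} (hR : 1 ≤ R) (hh : 1 ≤ h) (hx : 1 ≤ x)
    (hlh : Real.log h ≤ l / 6) (hy : 0 ≤ y) (hyx : y ≤ x) (hhx : (h : ℝ) ≤ x)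
    (ht : (t : ℝ) ≤ 4 / 5 * y) :
    (21 * 2 ^ h) ^ 2 * (R * h) ^ t ≤
      Real.exp (2 / 15 * (y * l) + (9 + Real.log R) * x) := by
  have hh0 : (0 : ℝ) < h := by exact_mod_cast hh
  have hR0 : 0 < R := by linarith
  apply le_exp_of_log (by positivity)
  rw [Real.log_mul (by positivity) (by positivity), Real.log_pow, Real.log_pow,
    Real.log_mul (by norm_num) (by positivity), Real.log_pow,
    Real.log_mul hR0.ne' hh0.ne']
  push_cast
  have e3 : (h : ℝ) * Real.log 2 ≤ x := by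
    have : (h : ℝ) * Real.log 2 ≤ h * 1 := mul_le_mul_of_nonneg_left log_two_le hh0.le
    linarith
  exact alg5 ht (Real.log_nonneg hR) hlh (Real.log_nonneg (by exact_mod_cast hh)) hy hyx e3
    log_21_le hx

/-- upper bound for the logarithm of `w` -/
lemma log_w_le (r n : ℕ) {K y l x : ℝ} (hr : 1 ≤ r) (hn : 1 ≤ n) (hK : 1 ≤ K)
    (hx1 : 1 ≤ x) (hnx : (n : ℝ) ≤ x) (hlog : Real.log n ≤ l) (hy : (r : ℝ) * y = x) :
    Real.log ((K * (n.factorial : ℝ)) ^ (1 / (r : ℝ))) ≤ y * l + Real.log K * x := by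
  have hr0 : (0 : ℝ) < r := by exact_mod_cast hr
  have hr1 : (1 : ℝ) ≤ r := by exact_mod_cast hr
  have hK0 : 0 < K := by linarith
  have hf : (0 : ℝ) < (n.factorial : ℝ) := by exact_mod_cast Nat.factorial_pos n
  rw [Real.log_rpow (by positivity), Real.log_mul hK0.ne' hf.ne']
  have e1 := log_fact_le n hn
  have e2 : (n : ℝ) * Real.log n ≤ x * l :=
    mul_le_mul hnx hlog (Real.log_nonneg (by exact_mod_cast hn)) (by linarith)
  have hlK : 0 ≤ Real.log K := Real.log_nonneg hK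
  have e3 : (1 / (r : ℝ)) * (Real.log K + Real.log (n.factorial : ℝ)) ≤
      (1 / r) * (Real.log K + x * l) := by
    apply mul_le_mul_of_nonneg_left _ (by positivity)
    linarith
  have e4 : (1 / (r : ℝ)) * (Real.log K + x * l) = (1 / r) * Real.log K + y * l := by
    rw [← hy]; field_simp
  have e5 : (1 / (r : ℝ)) * Real.log K ≤ 1 * Real.log K := by
    apply mul_le_mul_of_nonneg_right _ hlK
    rw [div_le_one hr0]
    exact hr1
  have e6 : Real.log K * 1 ≤ Real.log K * x := mul_le_mul_of_nonneg_left hx1 hlK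
  linarith

/-- lower bound for the logarithm of `w` -/
lemma le_log_w (r n : ℕ) {K y l x : ℝ} (hr : 1 ≤ r) (hn : 1 ≤ n) (hK : 1 ≤ K)
    (_hy0 : 0 ≤ y) (hyx : y ≤ x) (hnx : 99 / 100 * x ≤ n) (hnx2 : (n : ℝ) ≤ x)
    (hlog : l - 1 / 50 ≤ Real.log n) (hl : 1 / 50 ≤ l) (hy : (r : ℝ) * y = x) :
    99 / 100 * (y * l) - 2 * x ≤ Real.log ((K * (n.factorial : ℝ)) ^ (1 / (r : ℝ))) := by
  have hr0 : (0 : ℝ) < r := by exact_mod_cast hr
  have hK0 : 0 < K := by linarith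
  have hf : (0 : ℝ) < (n.factorial : ℝ) := by exact_mod_cast Nat.factorial_pos n
  have hn0 : (0 : ℝ) < n := by exact_mod_cast hn
  rw [Real.log_rpow (by positivity), Real.log_mul hK0.ne' hf.ne']
  have e1 := le_log_fact n hn
  have hlK : 0 ≤ Real.log K := Real.log_nonneg hK
  have e2 : 99 / 100 * x * (l - 1 / 50) ≤ n * Real.log n :=
    mul_le_mul hnx hlog (by linarith) hn0.le
  have e4 : (1 / (r : ℝ)) * (99 / 100 * x * (l - 1 / 50) - x) ≤
      (1 / r) * (Real.log K + Real.log (n.factorial : ℝ)) := by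
    apply mul_le_mul_of_nonneg_left _ (by positivity)
    linarith
  have e5 : (1 / (r : ℝ)) * (99 / 100 * x * (l - 1 / 50) - x) =
      99 / 100 * (y * l) - (1 + 99 / 5000) * y := by
    rw [← hy]; field_simp; ring
  linarith

/-- the power of `4 h / n` -/
lemma pow_bound {v u s y l x L : ℝ} (hv0 : 0 ≤ v) (hv : 12 * u - s ≤ v) (hu : y / 5 - 1 ≤ u)
    (hL : L ≤ -(5 / 6 * l - 2)) (hl : 0 ≤ 5 / 6 * l - 2) (hs : 0 ≤ s)
    (hsl : s * l ≤ 2 * x) (hyx : y ≤ x) (hlx : l ≤ x) :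
    v * L ≤ -(2 * (y * l)) + 19 * x := by
  have e4 : v * L ≤ v * -(5 / 6 * l - 2) := mul_le_mul_of_nonneg_left hL hv0
  have e3 : 12 / 5 * y - 12 - s ≤ v := by linarith
  have e5 : (12 / 5 * y - 12 - s) * (5 / 6 * l - 2) ≤ v * (5 / 6 * l - 2) :=
    mul_le_mul_of_nonneg_right e3 hl
  have e6 : (12 / 5 * y - 12 - s) * (5 / 6 * l - 2) =
      2 * (y * l) - 24 / 5 * y - 10 * l - 5 / 6 * (s * l) + 24 + 2 * s := by ring
  have e7 : v * -(5 / 6 * l - 2) = -(v * (5 / 6 * l - 2)) := by ring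
  rw [e7] at e4
  rw [e6] at e5
  linarith

/-- the first part -/
lemma part1 (h : ℕ) (v : ℕ) {w B y l x k : ℝ} (hw : 0 < w) (hB : 0 < B)
    (hlw : Real.log w ≤ y * l + k * x) (hvB : (v : ℝ) * Real.log B ≤ -(2 * (y * l)) + 19 * x)
    (hh : (h : ℝ) ≤ x) (hx : 1 ≤ x) :
    10 * 2 ^ h * w * B ^ v ≤ Real.exp (-(y * l) + (23 + k) * x) := by
  apply le_exp_of_log (by positivity)
  rw [Real.log_mul (by positivity) (by positivity), Real.log_mul (by positivity) hw.ne',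
    Real.log_mul (by norm_num) (by positivity), Real.log_pow, Real.log_pow]
  have e8 := log_10_le
  have e9 : (h : ℝ) * Real.log 2 ≤ x := by
    have : (h : ℝ) * Real.log 2 ≤ h * 1 :=
      mul_le_mul_of_nonneg_left log_two_le (Nat.cast_nonneg h)
    linarith
  have e10 : (23 + k) * x = 23 * x + k * x := by ring
  rw [e10]
  linarith

/-- the second part -/
lemma part2 {w C y l x : ℝ} (hw : 0 < w) (hC : 0 < C)
    (hlw : 99 / 100 * (y * l) - 2 * x ≤ Real.log w) (hx : 1 ≤ x) :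
    C / w ≤ Real.exp (|Real.log C| * x + 2 * x - 99 / 100 * (y * l)) := by
  apply le_exp_of_log (by positivity)
  rw [Real.log_div hC.ne' hw.ne']
  have e2 : Real.log C ≤ |Real.log C| := le_abs_self _
  have e3 : |Real.log C| * 1 ≤ |Real.log C| * x := mul_le_mul_of_nonneg_left hx (abs_nonneg _)
  linarith

/-- the product of the five factors -/
lemma prod5 {A1 A2 A3 A4 A5 E1 E2 E3 E4 E5 : ℝ} (_h1 : 0 ≤ A1) (h2 : 0 ≤ A2) (h3 : 0 ≤ A3)
    (h4 : 0 ≤ A4) (h5 : 0 ≤ A5) (k1 : A1 ≤ Real.exp E1) (k2 : A2 ≤ Real.exp E2)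
    (k3 : A3 ≤ Real.exp E3) (k4 : A4 ≤ Real.exp E4) (k5 : A5 ≤ Real.exp E5) :
    A1 * A2 * A3 * A4 * A5 ≤ Real.exp (E1 + E2 + E3 + E4 + E5) := by
  rw [Real.exp_add, Real.exp_add, Real.exp_add, Real.exp_add]
  have p1 := mul_le_mul k1 k2 h2 (Real.exp_pos E1).le
  have p2 := mul_le_mul p1 k3 h3 (by positivity)
  have p3 := mul_le_mul p2 k4 h4 (by positivity)
  exact mul_le_mul p3 k5 h5 (by positivity)

/-- the final step -/
lemma final {G P Q yl x c1 k c2 : ℝ} (_hG0 : 0 ≤ G) (hP0 : 0 ≤ P) (hQ0 : 0 ≤ Q)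
    (hG : G ≤ Real.exp (73 / 75 * yl + c1 * x)) (hP : P ≤ Real.exp (-yl + (23 + k) * x))
    (hQ : Q ≤ Real.exp (c2 * x + 2 * x - 99 / 100 * yl)) (hx : 1 ≤ x) (hyl : 0 ≤ yl)
    (hk : 0 ≤ k) (hc2 : 0 ≤ c2)
    (hM : (c1 + 23 + k + c2) * x + x ≤ 1 / 60 * yl) : G * (P + Q) < 1 := by
  have hkx : 0 ≤ k * x := mul_nonneg hk (by linarith)
  have hcx : 0 ≤ c2 * x := mul_nonneg hc2 (by linarith)
  have e0 : (c1 + 23 + k + c2) * x = c1 * x + 23 * x + k * x + c2 * x := by ring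
  rw [e0] at hM
  have p1 : G * P ≤ Real.exp (-1) := by
    refine (mul_le_mul hG hP hP0 (Real.exp_pos _).le).trans ?_
    rw [← Real.exp_add]
    apply Real.exp_le_exp.2
    have e1 : (23 + k) * x = 23 * x + k * x := by ring
    rw [e1]
    linarith
  have p2 : G * Q ≤ Real.exp (-1) := by
    refine (mul_le_mul hG hQ hQ0 (Real.exp_pos _).le).trans ?_
    rw [← Real.exp_add]
    apply Real.exp_le_exp.2
    linarith
  have := exp_neg_one_lt
  rw [mul_add]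
  linarith

/-- Facts on `n`, `h`, `x`. -/
lemma facts {X h n : ℕ} {x l : ℝ} (hx : x = (X : ℝ)) (hl : l = Real.log x) (hx1 : 1 ≤ x)
    (h1 : 1 ≤ h) (h6 : h ^ 6 ≤ X) (hn : 1 ≤ n)
    (hn1 : 99 * X ≤ 100 * n) (hn2 : n ≤ X) :
    Real.log n ≤ l ∧ l - 1 / 50 ≤ Real.log n ∧ Real.log h ≤ l / 6 ∧
      99 / 100 * x ≤ n ∧ (n : ℝ) ≤ x := by
  have hx0 : 0 < x := by linarith
  have hn1' : 99 / 100 * x ≤ n := by
    have : (99 : ℝ) * X ≤ 100 * n := by exact_mod_cast hn1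
    rw [← hx] at this
    linarith
  have hn2' : (n : ℝ) ≤ x := by rw [hx]; exact_mod_cast hn2
  have hn0 : (0 : ℝ) < n := by exact_mod_cast hn
  have hh0 : (0 : ℝ) < h := by exact_mod_cast h1
  refine ⟨?_, ?_, ?_, hn1', hn2'⟩
  · rw [hl]; exact Real.log_le_log hn0 hn2'
  · have e1 : Real.log (99 / 100 * x) ≤ Real.log n := Real.log_le_log (by positivity) hn1'
    rw [Real.log_mul (by norm_num) hx0.ne', ← hl] at e1
    have e2 : 1 - (99 / 100 : ℝ)⁻¹ ≤ Real.log (99 / 100) :=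
      Real.one_sub_inv_le_log_of_pos (by norm_num)
    have e3 : -(1 / 50 : ℝ) ≤ 1 - (99 / 100 : ℝ)⁻¹ := by norm_num
    linarith
  · have e1 : Real.log ((h : ℝ) ^ 6) ≤ l := by
      rw [hl]
      apply Real.log_le_log (by positivity)
      rw [hx]; exact_mod_cast h6
    rw [Real.log_pow] at e1
    push_cast at e1
    linarith

/-- Facts on `a = x ^ (1/6)`. -/
lemma facts2 {X h s : ℕ} {x l y a : ℝ} (hx : x = (X : ℝ)) (ha0 : 2 ≤ a) (ha6 : a ^ 6 = x)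
    (hla : l ≤ a) (hl0 : 0 ≤ l) (h1 : 1 ≤ h) (h6 : h ^ 6 ≤ X) (h7 : X < (h + 1) ^ 6)
    (_hy0 : 0 ≤ y) (hyx : y ≤ x) (hsh : (s : ℝ) * h ≤ y / 25) :
    (h : ℝ) ≤ x ∧ l ≤ x ∧ (h : ℝ) * l ≤ x ∧ (s : ℝ) ≤ x ∧ (s : ℝ) * l ≤ 2 * x ∧
      (s : ℝ) * h ≤ x := by
  have hh1 : (1 : ℝ) ≤ h := by exact_mod_cast h1
  have hh0 : (0 : ℝ) < h := by linarith
  have hs0 : (0 : ℝ) ≤ s := Nat.cast_nonneg s
  have hha : (h : ℝ) ≤ a := by
    have : (h : ℝ) ^ 6 ≤ a ^ 6 := by rw [ha6, hx]; exact_mod_cast h6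
    exact le_of_pow_le_pow_left₀ (by norm_num) (by linarith) this
  have hah : a < h + 1 := by
    have : a ^ 6 < ((h : ℝ) + 1) ^ 6 := by rw [ha6, hx]; exact_mod_cast h7
    exact lt_of_pow_lt_pow_left₀ 6 (by positivity) this
  have hah2 : a ≤ 2 * h := by linarith
  have ha2x : a ^ 2 ≤ x := by
    rw [← ha6]
    exact pow_le_pow_right₀ (by linarith) (by norm_num)
  have hax : a ≤ x := by
    have : a * 1 ≤ a * a := mul_le_mul_of_nonneg_left (by linarith) (by linarith)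
    have e : a * a = a ^ 2 := by ring
    linarith
  have hshx : (s : ℝ) * h ≤ x := by linarith
  have hsx : (s : ℝ) ≤ x := by
    have : (s : ℝ) * 1 ≤ s * h := mul_le_mul_of_nonneg_left hh1 hs0
    linarith
  refine ⟨hha.trans hax, hla.trans hax, ?_, hsx, ?_, hshx⟩
  · calc (h : ℝ) * l ≤ a * a := mul_le_mul hha hla hl0 (by linarith)
      _ = a ^ 2 := by ring
      _ ≤ x := ha2x
  · have e1 : (s : ℝ) * l ≤ s * (2 * h) := mul_le_mul_of_nonneg_left (hla.trans hah2) hs0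
    have e2 : (s : ℝ) * (2 * h) = 2 * (s * h) := by ring
    linarith

/-- Facts on `u = X / (5 r)` and `s`. -/
lemma facts3 {X h r s : ℕ} {x y : ℝ} (hx : x = (X : ℝ)) (hr : 1 ≤ r)
    (hy : (r : ℝ) * y = x) (hs : s < X / (25 * r * h)) :
    ((X / (5 * r) : ℕ) : ℝ) ≤ y / 5 ∧ y / 5 - 1 ≤ ((X / (5 * r) : ℕ) : ℝ) ∧
      (s : ℝ) * h ≤ y / 25 := by
  have hr0 : (0 : ℝ) < r := by exact_mod_cast hr
  refine ⟨?_, ?_, ?_⟩
  · have e1 : ((X / (5 * r) : ℕ) : ℝ) ≤ (X : ℝ) / ((5 * r : ℕ) : ℝ) := Nat.cast_div_le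
    refine e1.trans (le_of_eq ?_)
    rw [← hx, ← hy]
    push_cast
    field_simp
  · have e1 : X < (5 * r) * (X / (5 * r) + 1) := Nat.lt_mul_div_succ X (by positivity)
    have e2 : (X : ℝ) < (5 * r) * (((X / (5 * r) : ℕ) : ℝ) + 1) := by exact_mod_cast e1
    rw [← hx, ← hy] at e2
    have e3 : (r : ℝ) * y < r * (5 * (((X / (5 * r) : ℕ) : ℝ) + 1)) := by
      refine e2.trans_le (le_of_eq ?_)
      ring
    have e4 := lt_of_mul_lt_mul_left e3 hr0.le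
    linarith
  · have e1 : s ≤ X / (25 * r * h) := hs.le
    have e2 : s * (25 * r * h) ≤ X :=
      (Nat.mul_le_mul_right _ e1).trans (Nat.div_mul_le_self X (25 * r * h))
    have e3 : (s : ℝ) * (25 * r * h) ≤ x := by rw [hx]; exact_mod_cast e2
    have e4 : (r : ℝ) * (25 * (s * h)) ≤ r * y := by
      rw [hy]
      refine le_trans (le_of_eq ?_) e3
      ring
    have e5 := le_of_mul_le_mul_left e4 hr0
    linarith

lemma factsB {n h : ℕ} {l : ℝ} (hn : 1 ≤ n) (hh : 1 ≤ h) (hlh : Real.log h ≤ l / 6)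
    (hln : l - 1 / 50 ≤ Real.log n) : Real.log (4 * h / n) ≤ -(5 / 6 * l - 2) := by
  have hn0 : (0 : ℝ) < n := by exact_mod_cast hn
  have hh0 : (0 : ℝ) < h := by exact_mod_cast hh
  rw [Real.log_div (by positivity) hn0.ne', Real.log_mul (by norm_num) hh0.ne']
  have := log_4_le
  linarith

lemma sub_cast (u s : ℕ) : 12 * (u : ℝ) - s ≤ ((12 * u - s : ℕ) : ℝ) := by
  have : (12 * u : ℕ) ≤ (12 * u - s) + s := by omega
  have h' : ((12 * u : ℕ) : ℝ) ≤ ((12 * u - s : ℕ) : ℝ) + s := by exact_mod_cast this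
  push_cast at h'
  linarith

end NumericA

open NumericA in
/-- (D) the numerical inequality -/
theorem numeric (r : ℕ) (hr : 2 ≤ r) (K C0 : ℝ) (hK : 1 ≤ K) (hC : 0 < C0) :
    ∃ X0 : ℕ, ∀ X h n s : ℕ, X0 ≤ X → 1 ≤ h → h ^ 6 ≤ X → X < (h + 1) ^ 6 →
      99 * X ≤ 100 * n → n ≤ X → s < X / (25 * r * h) →
      ∀ w : ℝ, w = (K * (n.factorial : ℝ)) ^ (1 / (r : ℝ)) →
      ((r : ℝ) ^ 2 * n) ^ (4 * (X / (5 * r)) + s * h) * (n : ℝ) ^ h
        * (2 ^ h * (5 * r ^ 2 * h * X)) ^ s * (4 * ((X / (5 * r) : ℕ) : ℝ) + 1)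
        * ((21 * 2 ^ h) ^ 2 * (4 * (r : ℝ) ^ 2 * h) ^ (4 * (X / (5 * r))))
        * (10 * 2 ^ h * w * (4 * h / n) ^ (12 * (X / (5 * r)) - s) + 5 * C0 / w) < 1 := by
  have hr0 : (2 : ℝ) ≤ r := by exact_mod_cast hr
  have hr2 : (1 : ℝ) ≤ (r : ℝ) ^ 2 := one_le_pow₀ (by linarith)
  have hρ0 : 0 ≤ Real.log r := Real.log_nonneg (by linarith)
  have hR5 : (1 : ℝ) ≤ 5 * (r : ℝ) ^ 2 := by linarith
  have hR4 : (1 : ℝ) ≤ 4 * (r : ℝ) ^ 2 := by linarith
  have hq5 : 0 ≤ Real.log (5 * (r : ℝ) ^ 2) := Real.log_nonneg hR5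
  have hq4 : 0 ≤ Real.log (4 * (r : ℝ) ^ 2) := Real.log_nonneg hR4
  have hlK : 0 ≤ Real.log K := Real.log_nonneg hK
  obtain ⟨c1, hc1⟩ : ∃ c1 : ℝ, c1 = 2 * Real.log r + 16 + Real.log (5 * (r : ℝ) ^ 2) +
    Real.log (4 * (r : ℝ) ^ 2) := ⟨_, rfl⟩
  have hc10 : 0 ≤ c1 := by rw [hc1]; linarith
  obtain ⟨c, hc⟩ : ∃ c : ℝ, c = c1 + 23 + Real.log K + |Real.log (5 * C0)| := ⟨_, rfl⟩
  have hc0 : 0 ≤ c := by
    have := abs_nonneg (Real.log (5 * C0))
    rw [hc]; linarith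
  obtain ⟨X0, hX0⟩ := large (60 * r * (c + 1))
  refine ⟨X0, ?_⟩
  intro X h n s hXX h1 h6 h7 hn1 hn2 hs w hw
  obtain ⟨hX1, hM, hl6, ha2⟩ := hX0 X hXX
  obtain ⟨x, hx⟩ : ∃ x : ℝ, x = (X : ℝ) := ⟨_, rfl⟩
  obtain ⟨l, hl⟩ : ∃ l : ℝ, l = Real.log x := ⟨_, rfl⟩
  obtain ⟨a, ha⟩ : ∃ a : ℝ, a = x ^ (1 / 6 : ℝ) := ⟨_, rfl⟩
  rw [← hx] at hM hl6 ha2
  rw [← hl] at hM hl6
  rw [← ha] at hl6 ha2
  have hx1 : 1 ≤ x := by rw [hx]; exact_mod_cast hX1
  have hx0 : 0 < x := by linarith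
  have ha6 : a ^ 6 = x := by
    rw [ha, ← Real.rpow_natCast, ← Real.rpow_mul hx0.le]
    norm_num
  have hl0 : 0 ≤ l := by rw [hl]; exact Real.log_nonneg hx1
  obtain ⟨y, hy⟩ : ∃ y : ℝ, y = x / r := ⟨_, rfl⟩
  have hrp : (0 : ℝ) < r := by linarith
  have hry : (r : ℝ) * y = x := by
    rw [hy]; field_simp
  have hy0 : 0 < y := by rw [hy]; positivity
  have hyx : y ≤ x := by
    rw [hy]
    exact div_le_self hx0.le (by linarith)
  have hr1 : 1 ≤ r := by omega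
  have hnpos : 1 ≤ n := by
    rcases Nat.eq_zero_or_pos n with h0 | h0
    · subst h0
      omega
    · exact h0
  obtain ⟨hu1, hu2, hsh⟩ := facts3 hx hr1 hry hs
  obtain ⟨hlogn, hlogn2, hlogh, hn1', hn2'⟩ := facts hx hl hx1 h1 h6 hnpos hn1 hn2
  obtain ⟨hhx, hlx, hhl, hsx, hsl, hshx⟩ :=
    facts2 hx ha2 ha6 hl6 hl0 h1 h6 h7 hy0.le hyx hsh
  rw [← hx]
  generalize X / (5 * r) = u at hu1 hu2 ⊢
  -- lower bound for `l`
  have hl1 : 120 ≤ l := by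
    have e1 : (2 : ℝ) * 1 ≤ r * (c + 1) := mul_le_mul hr0 (by linarith) (by norm_num) hrp.le
    have e2 : 60 * (r : ℝ) * (c + 1) = 60 * (r * (c + 1)) := by ring
    rw [e2] at hM
    linarith
  have hMl : (c1 + 23 + Real.log K + |Real.log (5 * C0)|) * x + x ≤ 1 / 60 * (y * l) := by
    rw [← hc]
    have e1 : 60 * r * (c + 1) * y ≤ l * y := mul_le_mul_of_nonneg_right hM hy0.le
    have e2 : 60 * r * (c + 1) * y = 60 * (c + 1) * (r * y) := by ring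
    rw [e2, hry] at e1
    linarith
  have hfac : (0 : ℝ) < (n.factorial : ℝ) := by exact_mod_cast Nat.factorial_pos n
  have hw0 : 0 < w := by
    rw [hw]
    have : 0 < K := by linarith
    positivity
  have hlw1 : Real.log w ≤ y * l + Real.log K * x := by
    rw [hw]
    exact log_w_le r n hr1 hnpos hK hx1 hn2' hlogn hry
  have hlw2 : 99 / 100 * (y * l) - 2 * x ≤ Real.log w := by
    rw [hw]
    exact le_log_w r n hr1 hnpos hK hy0.le hyx hn1' hn2' hlogn2 (by linarith) hry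
  have he1 : ((4 * u + s * h : ℕ) : ℝ) ≤ 21 / 25 * y := by
    push_cast
    linarith
  have f1 := fac1 r n (4 * u + s * h) hr1 hnpos hy0.le hyx hlogn he1
  have f2 := fac2 n h hnpos hlogn hhl
  have f3 := fac3 h s hR5 h1 hx0 hl hlogh hl0 hshx hsx hsl
  have f4 := fac4 u (x := x) (by linarith)
  have f5 := fac5 h (4 * u) hR4 h1 hx1 hlogh hy0.le hyx hhx (by push_cast; linarith)
  have hn0 : (0 : ℝ) < n := by exact_mod_cast hnpos
  have hh0 : (0 : ℝ) < h := by exact_mod_cast h1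
  have hG := prod5 (by positivity) (by positivity) (by positivity) (by positivity)
    (by positivity) f1 f2 f3 f4 f5
  have hB : 0 < 4 * (h : ℝ) / n := by positivity
  have hvB : ((12 * u - s : ℕ) : ℝ) * Real.log (4 * h / n) ≤ -(2 * (y * l)) + 19 * x :=
    pow_bound (Nat.cast_nonneg _) (sub_cast u s) hu2 (factsB hnpos h1 hlogh hlogn2)
      (by linarith) (Nat.cast_nonneg s) hsl hyx hlx
  have hP := part1 h (12 * u - s) hw0 hB hlw1 hvB hhx hx1
  have hQ := part2 hw0 (by positivity : 0 < 5 * C0) hlw2 hx1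
  refine final (by positivity) (by positivity) (by positivity) (hG.trans (le_of_eq ?_)) hP hQ
    hx1 (by positivity) hlK (abs_nonneg _) hMl
  congr 1
  rw [hc1]
  ring

end Pool.H78.Fac
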