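import Pool.Agent.H37.Fac.Numeric

/-! # The numerical inequality (D) for the exponent 4/5 -/

namespace Pool.H78.Fac

open Finset Polynomial

namespace NumericB

open NumericA

/-- Facts that hold for all large `X`. -/
lemma large4 (M D : ℝ) (hD : 0 < D) : ∃ X0 : ℕ, ∀ X : ℕ, X0 ≤ X → 1 ≤ X ∧ M ≤ Real.log X ∧
    D * Real.log X ≤ (X : ℝ) ^ (1 / 5 : ℝ) := by
  have h1 : ∀ᶠ x : ℝ in Filter.atTop, M ≤ Real.log x :=
    Real.tendsto_log_atTop.eventually_ge_atTop M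
  have h2 : ∀ᶠ x : ℝ in Filter.atTop, D * Real.log x ≤ x ^ (1 / 5 : ℝ) := by
    have h3 := (isLittleO_log_rpow_atTop (by norm_num : (0 : ℝ) < 1 / 5)).bound
      (by positivity : (0 : ℝ) < 1 / D)
    filter_upwards [h3, Filter.eventually_ge_atTop (1 : ℝ)] with x hx hx1
    rw [Real.norm_eq_abs, Real.norm_eq_abs,
      abs_of_nonneg (Real.log_nonneg hx1), abs_of_nonneg (by positivity)] at hx
    calc D * Real.log x ≤ D * (1 / D * x ^ (1 / 5 : ℝ)) := mul_le_mul_of_nonneg_left hx hD.le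
      _ = x ^ (1 / 5 : ℝ) := by field_simp
  have h5 := tendsto_natCast_atTop_atTop (R := ℝ) |>.eventually (h1.and h2)
  obtain ⟨N, hN⟩ := Filter.eventually_atTop.1 h5
  refine ⟨max N 1, fun X hX => ?_⟩
  obtain ⟨a, b⟩ := hN X (le_trans (le_max_left _ _) hX)
  exact ⟨le_trans (le_max_right _ _) hX, a, b⟩

lemma log_17_le : Real.log 17 ≤ 4 := by
  have e2 : Real.log 17 ≤ Real.log (2 ^ 5) := Real.log_le_log (by norm_num) (by norm_num)
  rw [Real.log_pow] at e2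
  have := Real.log_two_lt_d9
  push_cast at e2
  linarith

lemma log_8_le : Real.log 8 ≤ 3 := by
  have e2 : Real.log 8 ≤ Real.log (2 ^ 3) := Real.log_le_log (by norm_num) (by norm_num)
  rw [Real.log_pow] at e2
  have := Real.log_two_lt_d9
  push_cast at e2
  linarith

lemma exp_neg_two_lt : Real.exp (-2) < 1 / 3 := by
  rw [Real.exp_neg, ← one_div]
  apply one_div_lt_one_div_of_lt (by norm_num)
  have h1 := Real.add_one_lt_exp (by norm_num : (2 : ℝ) ≠ 0)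
  linarith

lemma alg1' {κ e y ρ ln l x : ℝ} (he : e ≤ κ * y) (hκ : 0 ≤ κ) (hκ1 : κ ≤ 1) (hρ : 0 ≤ ρ)
    (hln : 0 ≤ ln) (hll : ln ≤ l) (hy : 0 ≤ y) (hyx : y ≤ x) :
    e * (2 * ρ + ln) ≤ κ * (y * l) + 2 * (ρ * x) := by
  have e1 : e * (2 * ρ + ln) ≤ κ * y * (2 * ρ + ln) :=
    mul_le_mul_of_nonneg_right he (by linarith)
  have e2 : κ * (y * ln) ≤ κ * (y * l) :=
    mul_le_mul_of_nonneg_left (mul_le_mul_of_nonneg_left hll hy) hκ
  have e3 : ρ * y ≤ ρ * x := mul_le_mul_of_nonneg_left hyx hρ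
  have e4 : 0 ≤ ρ * y := mul_nonneg hρ hy
  have e6 : κ * (ρ * y) ≤ 1 * (ρ * y) := mul_le_mul_of_nonneg_right hκ1 e4
  have e5 : κ * y * (2 * ρ + ln) = 2 * (κ * (ρ * y)) + κ * (y * ln) := by ring
  linarith

lemma fac1' (r n e : ℕ) {κ y l x : ℝ} (hκ : 0 ≤ κ) (hκ1 : κ ≤ 1) (hr : 1 ≤ r) (hn : 1 ≤ n)
    (hy : 0 ≤ y) (hyx : y ≤ x) (hlog : Real.log n ≤ l) (he : (e : ℝ) ≤ κ * y) :
    ((r : ℝ) ^ 2 * n) ^ e ≤ Real.exp (κ * (y * l) + 2 * (Real.log r * x)) := by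
  have hr0 : (0 : ℝ) < r := by exact_mod_cast hr
  have hn0 : (0 : ℝ) < n := by exact_mod_cast hn
  apply le_exp_of_log (by positivity)
  rw [Real.log_pow, Real.log_mul (by positivity) hn0.ne', Real.log_pow]
  push_cast
  exact alg1' he hκ hκ1 (Real.log_nonneg (by exact_mod_cast hr))
    (Real.log_nonneg (by exact_mod_cast hn)) hlog hy hyx

lemma two_pow_le (h : ℕ) {x : ℝ} (hh : (h : ℝ) ≤ x) : (2 : ℝ) ^ h ≤ Real.exp x := by
  apply le_exp_of_log (by positivity)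
  rw [Real.log_pow]
  have : (h : ℝ) * Real.log 2 ≤ h * 1 :=
    mul_le_mul_of_nonneg_left log_two_le (Nat.cast_nonneg h)
  linarith

lemma fac3' (h s : ℕ) {R l x : ℝ} (hR : 1 ≤ R) (hh : 1 ≤ h) (hx : 0 < x)
    (hl : l = Real.log x) (hlh : Real.log h ≤ l) (hl0 : 0 ≤ l)
    (hshx : (s : ℝ) * h ≤ x) (hsx : (s : ℝ) ≤ x) (hsl : (s : ℝ) * l ≤ x) :
    (2 ^ h * (R * h * x)) ^ s ≤ Real.exp ((3 + Real.log R) * x) := by
  have hh0 : (0 : ℝ) < h := by exact_mod_cast hh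
  have hR0 : 0 < R := by linarith
  have hs0 : (0 : ℝ) ≤ s := Nat.cast_nonneg s
  apply le_exp_of_log (by positivity)
  rw [Real.log_pow, Real.log_mul (by positivity) (by positivity), Real.log_pow,
    Real.log_mul (by positivity) hx.ne', Real.log_mul hR0.ne' hh0.ne', ← hl]
  have e1 : (s : ℝ) * h * Real.log 2 ≤ (s : ℝ) * h * 1 :=
    mul_le_mul_of_nonneg_left log_two_le (by positivity)
  have e2 : (s : ℝ) * Real.log R ≤ x * Real.log R :=
    mul_le_mul_of_nonneg_right hsx (Real.log_nonneg hR)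
  have e3 : (s : ℝ) * Real.log h ≤ s * l := mul_le_mul_of_nonneg_left hlh hs0
  have e4 : 0 ≤ (s : ℝ) * l := mul_nonneg hs0 hl0
  have e5 : (s : ℝ) * (h * Real.log 2 + (Real.log R + Real.log h + l)) =
    (s : ℝ) * h * Real.log 2 + s * Real.log R + s * Real.log h + s * l := by ring
  have e6 : (3 + Real.log R) * x = 3 * x + x * Real.log R := by ring
  rw [e5, e6]
  linarith

/-- `(17 * 2 ^ h) ^ 4 * T ^ t` -/
lemma fac5' (h t : ℕ) {T y l x : ℝ} (hT : 0 < T) (hx : 1 ≤ x) (hl : 0 ≤ l)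
    (hlT : Real.log T ≤ l / 5) (hhx : (h : ℝ) ≤ x) (ht : (t : ℝ) ≤ 24 / 25 * y) :
    (17 * 2 ^ h) ^ 4 * T ^ t ≤ Real.exp (24 / 125 * (y * l) + 20 * x) := by
  apply le_exp_of_log (by positivity)
  rw [Real.log_mul (by positivity) (by positivity), Real.log_pow, Real.log_pow,
    Real.log_mul (by norm_num) (by positivity), Real.log_pow]
  push_cast
  have e3 : (h : ℝ) * Real.log 2 ≤ x := by
    have : (h : ℝ) * Real.log 2 ≤ h * 1 :=
      mul_le_mul_of_nonneg_left log_two_le (Nat.cast_nonneg h)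
    linarith
  have e4 : (t : ℝ) * Real.log T ≤ t * (l / 5) :=
    mul_le_mul_of_nonneg_left hlT (Nat.cast_nonneg t)
  have e5 : (t : ℝ) * (l / 5) ≤ 24 / 25 * y * (l / 5) :=
    mul_le_mul_of_nonneg_right ht (by linarith)
  have e6 : 24 / 25 * y * (l / 5) = 24 / 125 * (y * l) := by ring
  have := log_17_le
  linarith

/-- lower bound for the logarithm of `w` -/
lemma le_log_w' (r n : ℕ) {K y l x : ℝ} (hr : 1 ≤ r) (hn : 1 ≤ n) (hK : 1 ≤ K)
    (hyx : y ≤ x) (_hy0 : 0 ≤ y) (hnx : 499 / 500 * x ≤ n) (hnx2 : (n : ℝ) ≤ x)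
    (hlog : l - 1 / 100 ≤ Real.log n) (hl : 1 / 50 ≤ l) (hy : (r : ℝ) * y = x) :
    499 / 500 * (y * l) - 2 * x ≤ Real.log ((K * (n.factorial : ℝ)) ^ (1 / (r : ℝ))) := by
  have hr0 : (0 : ℝ) < r := by exact_mod_cast hr
  have hK0 : 0 < K := by linarith
  have hf : (0 : ℝ) < (n.factorial : ℝ) := by exact_mod_cast Nat.factorial_pos n
  have hn0 : (0 : ℝ) < n := by exact_mod_cast hn
  rw [Real.log_rpow (by positivity), Real.log_mul hK0.ne' hf.ne']
  have e1 := le_log_fact n hn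
  have hlK : 0 ≤ Real.log K := Real.log_nonneg hK
  have e2 : 499 / 500 * x * (l - 1 / 100) ≤ n * Real.log n :=
    mul_le_mul hnx hlog (by linarith) hn0.le
  have e4 : (1 / (r : ℝ)) * (499 / 500 * x * (l - 1 / 100) - x) ≤
      (1 / r) * (Real.log K + Real.log (n.factorial : ℝ)) := by
    apply mul_le_mul_of_nonneg_left _ (by positivity)
    linarith
  have e5 : (1 / (r : ℝ)) * (499 / 500 * x * (l - 1 / 100) - x) =
      499 / 500 * (y * l) - (1 + 499 / 50000) * y := by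
    rw [← hy]; field_simp; ring
  linarith

/-- the power of `4 h / n` -/
lemma pow_bound4 {v u s y l x L : ℝ} (hv0 : 0 ≤ v) (hv : 250 * u - s ≤ v)
    (hu : y / 100 - 1 ≤ u) (hL : L ≤ -(4 / 5 * l - 2)) (hl : 0 ≤ 4 / 5 * l - 2) (hs : 0 ≤ s)
    (hsl : s * l ≤ x) (hyx : y ≤ x) (hlx : l ≤ x) (_hx : 0 ≤ x) :
    v * L ≤ -(2 * (y * l)) + 206 * x := by
  have e4 : v * L ≤ v * -(4 / 5 * l - 2) := mul_le_mul_of_nonneg_left hL hv0
  have e3 : 5 / 2 * y - 250 - s ≤ v := by linarith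
  have e5 : (5 / 2 * y - 250 - s) * (4 / 5 * l - 2) ≤ v * (4 / 5 * l - 2) :=
    mul_le_mul_of_nonneg_right e3 hl
  have e6 : (5 / 2 * y - 250 - s) * (4 / 5 * l - 2) =
      2 * (y * l) - 5 * y - 200 * l - 4 / 5 * (s * l) + 500 + 2 * s := by ring
  have e7 : v * -(4 / 5 * l - 2) = -(v * (4 / 5 * l - 2)) := by ring
  rw [e7] at e4
  rw [e6] at e5
  linarith

/-- the factor `w` times the power -/
lemma partB (h v : ℕ) {B y l x : ℝ} (hB : 0 < B)
    (hvB : (v : ℝ) * Real.log B ≤ -(2 * (y * l)) + 206 * x)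
    (hh : (h : ℝ) ≤ x) (hx : 1 ≤ x) :
    8 * 2 ^ h * B ^ v ≤ Real.exp (-(2 * (y * l)) + 210 * x) := by
  apply le_exp_of_log (by positivity)
  rw [Real.log_mul (by positivity) (by positivity),
    Real.log_mul (by norm_num) (by positivity), Real.log_pow, Real.log_pow]
  have e8 := log_8_le
  have e9 : (h : ℝ) * Real.log 2 ≤ x := by
    have : (h : ℝ) * Real.log 2 ≤ h * 1 :=
      mul_le_mul_of_nonneg_left log_two_le (Nat.cast_nonneg h)
    linarith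
  linarith

/-- the second part -/
lemma partC {w C y l x : ℝ} (hw : 0 < w) (hC : 0 < C)
    (hlw : 499 / 500 * (y * l) - 2 * x ≤ Real.log w) (hx : 1 ≤ x) :
    C / w ≤ Real.exp (|Real.log C| * x + 2 * x - 499 / 500 * (y * l)) := by
  apply le_exp_of_log (by positivity)
  rw [Real.log_div hC.ne' hw.ne']
  have e2 : Real.log C ≤ |Real.log C| := le_abs_self _
  have e3 : |Real.log C| * 1 ≤ |Real.log C| * x := mul_le_mul_of_nonneg_left hx (abs_nonneg _)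
  linarith

/-- the small term -/
lemma partA (h s u : ℕ) {T y l x : ℝ} (hT : 0 < T) (hT5 : T ^ 5 ≤ x) (hl : l = Real.log x)
    (hx : 1 ≤ x) (hlT : l / 5 - 1 ≤ Real.log T) (hlT0 : 0 ≤ l / 5 - 1) (hux : (u : ℝ) ≤ x)
    (hu1 : 1 ≤ u) (hu : y / 100 - 1 ≤ u) (hyx : y ≤ x) (_hy0 : 0 ≤ y) (hlx : l ≤ x)
    (hshx : (s : ℝ) * h ≤ x) (hsx : (s : ℝ) ≤ x) (hsl : (s : ℝ) * l ≤ x) :
    2 * ((T ^ 5 * (250 * u) * 2 ^ h) ^ s / (T ^ 5) ^ (181 * u)) ≤
      Real.exp (-(181 / 100 * (y * l)) + 202 * x) := by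
  have hx0 : 0 < x := by linarith
  have hu0 : (0 : ℝ) < u := by exact_mod_cast hu1
  have hs0 : (0 : ℝ) ≤ s := Nat.cast_nonneg s
  apply le_exp_of_log (by positivity)
  rw [Real.log_mul (by norm_num) (by positivity), Real.log_div (by positivity) (by positivity),
    Real.log_pow, Real.log_mul (by positivity) (by positivity),
    Real.log_mul (by positivity) (by positivity), Real.log_pow, Real.log_pow,
    Real.log_mul (by norm_num) hu0.ne', Real.log_pow]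
  push_cast
  have e1 : (s : ℝ) * h * Real.log 2 ≤ (s : ℝ) * h * 1 :=
    mul_le_mul_of_nonneg_left log_two_le (by positivity)
  have e2 : 5 * Real.log T ≤ l := by
    have : Real.log (T ^ 5) ≤ Real.log x := Real.log_le_log (by positivity) hT5
    rw [Real.log_pow, ← hl] at this
    push_cast at this
    exact this
  have e3 : (s : ℝ) * (5 * Real.log T) ≤ s * l := mul_le_mul_of_nonneg_left e2 hs0
  have e4 : Real.log u ≤ l := by rw [hl]; exact Real.log_le_log hu0 hux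
  have e5 : (s : ℝ) * Real.log u ≤ s * l := mul_le_mul_of_nonneg_left e4 hs0
  have e6 : Real.log 250 ≤ 6 := by
    have e2 : Real.log 250 ≤ Real.log (2 ^ 8) := Real.log_le_log (by norm_num) (by norm_num)
    rw [Real.log_pow] at e2
    have := Real.log_two_lt_d9
    push_cast at e2
    linarith
  have e7 : (s : ℝ) * Real.log 250 ≤ s * 6 := mul_le_mul_of_nonneg_left e6 hs0
  have e8 : (s : ℝ) * (5 * Real.log T + (Real.log 250 + Real.log u) + h * Real.log 2) =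
    s * (5 * Real.log T) + s * Real.log 250 + s * Real.log u + s * h * Real.log 2 := by ring
  have e9 : (y / 100 - 1) * (l / 5 - 1) ≤ u * Real.log T := by
    calc (y / 100 - 1) * (l / 5 - 1) ≤ u * (l / 5 - 1) := mul_le_mul_of_nonneg_right hu hlT0
      _ ≤ u * Real.log T := mul_le_mul_of_nonneg_left hlT hu0.le
  have e10 : (y / 100 - 1) * (l / 5 - 1) = 1 / 500 * (y * l) - y / 100 - l / 5 + 1 := by ring
  rw [e10] at e9
  have e11 : 181 * (u : ℝ) * (5 * Real.log T) = 905 * (u * Real.log T) := by ring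
  have e12 := log_two_le
  have e13 : Real.log (T ^ 5) = 5 * Real.log T := by
    rw [Real.log_pow]
    push_cast
    ring
  rw [e13, e8, e11]
  linarith

/-- the combination -/
lemma final4 {Q w A B N C yl x ρ k q c2 : ℝ} (_hQ0 : 0 ≤ Q) (hw0 : 0 ≤ w) (hA0 : 0 ≤ A)
    (hB0 : 0 ≤ B) (hN0 : 0 ≤ N) (hC0 : 0 ≤ C)
    (hQ : Q ≤ Real.exp (401 / 500 * yl + 2 * (ρ * x) + x))
    (hw : w ≤ Real.exp (yl + k * x))
    (hA : A ≤ Real.exp (-(181 / 100 * yl) + 202 * x))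
    (hB : B ≤ Real.exp (-(2 * yl) + 210 * x))
    (hN : N ≤ Real.exp (24 / 125 * yl + (24 + q) * x))
    (hC : C ≤ Real.exp (c2 * x + 2 * x - 499 / 500 * yl)) (hx : 1 ≤ x) (_hyl : 0 ≤ yl)
    (hρ : 0 ≤ ρ) (hk : 0 ≤ k) (hq : 0 ≤ q) (hc2 : 0 ≤ c2)
    (hM : (2 * ρ + k + q + c2 + 240) * x + 2 * x ≤ 1 / 250 * yl) :
    Q * (w * (A + B * N) + C * N) < 1 := by
  have hx0 : 0 ≤ x := by linarith
  have h1 : 0 ≤ ρ * x := mul_nonneg hρ hx0
  have h2 : 0 ≤ k * x := mul_nonneg hk hx0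
  have h3 : 0 ≤ q * x := mul_nonneg hq hx0
  have h4 : 0 ≤ c2 * x := mul_nonneg hc2 hx0
  have e0 : (2 * ρ + k + q + c2 + 240) * x =
    2 * (ρ * x) + k * x + q * x + c2 * x + 240 * x := by ring
  rw [e0] at hM
  have e1 : (24 + q) * x = 24 * x + q * x := by ring
  rw [e1] at hN
  have p1 : Q * w * A ≤ Real.exp (-2) := by
    have := mul_le_mul (mul_le_mul hQ hw hw0 (Real.exp_pos _).le) hA hA0 (by positivity)
    refine this.trans ?_
    rw [← Real.exp_add, ← Real.exp_add]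
    apply Real.exp_le_exp.2
    linarith
  have p2 : Q * w * B * N ≤ Real.exp (-2) := by
    have := mul_le_mul (mul_le_mul (mul_le_mul hQ hw hw0 (Real.exp_pos _).le) hB hB0
      (by positivity)) hN hN0 (by positivity)
    refine this.trans ?_
    rw [← Real.exp_add, ← Real.exp_add, ← Real.exp_add]
    apply Real.exp_le_exp.2
    linarith
  have p3 : Q * C * N ≤ Real.exp (-2) := by
    have := mul_le_mul (mul_le_mul hQ hC hC0 (Real.exp_pos _).le) hN hN0 (by positivity)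
    refine this.trans ?_
    rw [← Real.exp_add, ← Real.exp_add]
    apply Real.exp_le_exp.2
    linarith
  have := exp_neg_two_lt
  have e2 : Q * (w * (A + B * N) + C * N) = Q * w * A + Q * w * B * N + Q * C * N := by ring
  rw [e2]
  linarith

/-- Facts on `n`, `x`. -/
lemma factsn {X n : ℕ} {x l : ℝ} (hx : x = (X : ℝ)) (hl : l = Real.log x) (hx1 : 1 ≤ x)
    (hn : 1 ≤ n) (hn1 : 499 * X ≤ 500 * n) (hn2 : n ≤ X) :
    Real.log n ≤ l ∧ l - 1 / 100 ≤ Real.log n ∧ 499 / 500 * x ≤ n ∧ (n : ℝ) ≤ x := by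
  have hx0 : 0 < x := by linarith
  have hn1' : 499 / 500 * x ≤ n := by
    have : (499 : ℝ) * X ≤ 500 * n := by exact_mod_cast hn1
    rw [← hx] at this
    linarith
  have hn2' : (n : ℝ) ≤ x := by rw [hx]; exact_mod_cast hn2
  have hn0 : (0 : ℝ) < n := by exact_mod_cast hn
  refine ⟨?_, ?_, hn1', hn2'⟩
  · rw [hl]; exact Real.log_le_log hn0 hn2'
  · have e1 : Real.log (499 / 500 * x) ≤ Real.log n := Real.log_le_log (by positivity) hn1'
    rw [Real.log_mul (by norm_num) hx0.ne', ← hl] at e1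
    have e2 : 1 - (499 / 500 : ℝ)⁻¹ ≤ Real.log (499 / 500) :=
      Real.one_sub_inv_le_log_of_pos (by norm_num)
    have e3 : -(1 / 100 : ℝ) ≤ 1 - (499 / 500 : ℝ)⁻¹ := by norm_num
    linarith

/-- Facts on `h` and `T = 4 r^2 h`. -/
lemma factsT {X h r : ℕ} {x l a T : ℝ} (hr : 1 ≤ r) (hx : x = (X : ℝ)) (hl : l = Real.log x)
    (hx1 : 1 ≤ x) (ha0 : 0 ≤ a) (ha5 : a ^ 5 = x)
    (hla : 8 * (r : ℝ) ^ 2 * l ≤ a) (hl0 : 0 ≤ l) (h1 : 1 ≤ h) (h6 : (4 * r ^ 2 * h) ^ 5 ≤ X)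
    (h7 : X < (4 * r ^ 2 * (h + 1)) ^ 5) (hT : T = 4 * (r : ℝ) ^ 2 * h) :
    0 < T ∧ T ^ 5 ≤ x ∧ Real.log T ≤ l / 5 ∧ l / 5 - 1 ≤ Real.log T ∧ l ≤ h ∧
      (h : ℝ) ≤ x ∧ (h : ℝ) * l ≤ x ∧ Real.log h ≤ l / 5 := by
  have hx0 : 0 < x := by linarith
  have hr1 : (1 : ℝ) ≤ r := by exact_mod_cast hr
  have hr2 : (1 : ℝ) ≤ (r : ℝ) ^ 2 := one_le_pow₀ hr1
  have hh1 : (1 : ℝ) ≤ h := by exact_mod_cast h1
  have hh0 : (0 : ℝ) < h := by linarith
  have hT0 : 0 < T := by rw [hT]; positivity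
  have hhT : (h : ℝ) ≤ T := by
    rw [hT]
    have : 1 * (h : ℝ) ≤ 4 * (r : ℝ) ^ 2 * h := mul_le_mul_of_nonneg_right (by linarith) hh0.le
    linarith
  have hT5 : T ^ 5 ≤ x := by
    rw [hT, hx]; exact_mod_cast h6
  have hTa : T ≤ a := by
    have : T ^ 5 ≤ a ^ 5 := by rw [ha5]; exact hT5
    exact le_of_pow_le_pow_left₀ (by norm_num) ha0 this
  have h2T : x ≤ (2 * T) ^ 5 := by
    have e1 : x < (4 * (r : ℝ) ^ 2 * (h + 1)) ^ 5 := by rw [hx]; exact_mod_cast h7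
    have e2 : 4 * (r : ℝ) ^ 2 * (h + 1) ≤ 2 * T := by
      rw [hT]
      have : 4 * (r : ℝ) ^ 2 * (h + 1) ≤ 4 * (r : ℝ) ^ 2 * (2 * h) :=
        mul_le_mul_of_nonneg_left (by linarith) (by positivity)
      linarith
    exact e1.le.trans (pow_le_pow_left₀ (by positivity) e2 5)
  have ha2T : a ≤ 2 * T := by
    have : a ^ 5 ≤ (2 * T) ^ 5 := by rw [ha5]; exact h2T
    exact le_of_pow_le_pow_left₀ (by norm_num) (by positivity) this
  have hlh : l ≤ h := by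
    have e1 : 8 * (r : ℝ) ^ 2 * l ≤ 8 * (r : ℝ) ^ 2 * h := by
      refine hla.trans (ha2T.trans (le_of_eq ?_))
      rw [hT]; ring
    exact le_of_mul_le_mul_left e1 (by positivity)
  have ha1 : 1 ≤ a := by linarith
  have ha2x : a ^ 2 ≤ x := by
    rw [← ha5]
    exact pow_le_pow_right₀ ha1 (by norm_num)
  have hha : (h : ℝ) ≤ a := hhT.trans hTa
  have hlogT : Real.log T ≤ l / 5 := by
    have e1 : Real.log (T ^ 5) ≤ Real.log x := Real.log_le_log (by positivity) hT5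
    rw [Real.log_pow, ← hl] at e1
    push_cast at e1
    linarith
  have hlogh : Real.log h ≤ l / 5 := (Real.log_le_log hh0 hhT).trans hlogT
  refine ⟨hT0, hT5, hlogT, ?_, hlh, ?_, ?_, hlogh⟩
  · have e1 : Real.log x ≤ Real.log ((2 * T) ^ 5) := Real.log_le_log hx0 h2T
    rw [Real.log_pow, ← hl, Real.log_mul (by norm_num) hT0.ne'] at e1
    push_cast at e1
    have := log_two_le
    linarith
  · have : a * 1 ≤ a * a := mul_le_mul_of_nonneg_left ha1 ha0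
    have e : a * a = a ^ 2 := by ring
    linarith
  · calc (h : ℝ) * l ≤ a * a := mul_le_mul hha (hlh.trans hha) hl0 ha0
      _ = a ^ 2 := by ring
      _ ≤ x := ha2x

/-- Facts on `u = X / (100 r)` and `s`. -/
lemma factsu {X h r s : ℕ} {x y : ℝ} (hx : x = (X : ℝ)) (hr : 1 ≤ r)
    (hy : (r : ℝ) * y = x) (hs : s < X / (500 * r * h)) :
    ((X / (100 * r) : ℕ) : ℝ) ≤ y / 100 ∧ y / 100 - 1 ≤ ((X / (100 * r) : ℕ) : ℝ) ∧
      (s : ℝ) * h ≤ y / 500 := by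
  have hr0 : (0 : ℝ) < r := by exact_mod_cast hr
  refine ⟨?_, ?_, ?_⟩
  · have e1 : ((X / (100 * r) : ℕ) : ℝ) ≤ (X : ℝ) / ((100 * r : ℕ) : ℝ) := Nat.cast_div_le
    refine e1.trans (le_of_eq ?_)
    rw [← hx, ← hy]
    push_cast
    field_simp
  · have e1 : X < (100 * r) * (X / (100 * r) + 1) := Nat.lt_mul_div_succ X (by positivity)
    have e2 : (X : ℝ) < (100 * r) * (((X / (100 * r) : ℕ) : ℝ) + 1) := by exact_mod_cast e1
    rw [← hx, ← hy] at e2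
    have e3 : (r : ℝ) * y < r * (100 * (((X / (100 * r) : ℕ) : ℝ) + 1)) := by
      refine e2.trans_le (le_of_eq ?_)
      ring
    have e4 := lt_of_mul_lt_mul_left e3 hr0.le
    linarith
  · have e1 : s ≤ X / (500 * r * h) := hs.le
    have e2 : s * (500 * r * h) ≤ X :=
      (Nat.mul_le_mul_right _ e1).trans (Nat.div_mul_le_self X (500 * r * h))
    have e3 : (s : ℝ) * (500 * r * h) ≤ x := by rw [hx]; exact_mod_cast e2
    have e4 : (r : ℝ) * (500 * (s * h)) ≤ r * y := by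
      rw [hy]
      refine le_trans (le_of_eq ?_) e3
      ring
    have e5 := le_of_mul_le_mul_left e4 hr0
    linarith

lemma factsB4 {n h : ℕ} {l : ℝ} (hn : 1 ≤ n) (hh : 1 ≤ h) (hlh : Real.log h ≤ l / 5)
    (hln : l - 1 / 100 ≤ Real.log n) : Real.log (4 * h / n) ≤ -(4 / 5 * l - 2) := by
  have hn0 : (0 : ℝ) < n := by exact_mod_cast hn
  have hh0 : (0 : ℝ) < h := by exact_mod_cast hh
  rw [Real.log_div (by positivity) hn0.ne', Real.log_mul (by norm_num) hh0.ne']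
  have := log_4_le
  linarith

lemma sub_cast4 (u s : ℕ) : 250 * (u : ℝ) - s ≤ ((250 * u - s : ℕ) : ℝ) := by
  have : (250 * u : ℕ) ≤ (250 * u - s) + s := by omega
  have h' : ((250 * u : ℕ) : ℝ) ≤ ((250 * u - s : ℕ) : ℝ) + s := by exact_mod_cast this
  push_cast at h'
  linarith

/-- the bound for `N` -/
lemma factN {h s u : ℕ} {R T y l x N : ℝ} (hR : 1 ≤ R) (hh : 1 ≤ h) (hx1 : 1 ≤ x)
    (hl : l = Real.log x) (hlh : Real.log h ≤ l / 5) (hl0 : 0 ≤ l)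
    (hshx : (s : ℝ) * h ≤ x) (hsx : (s : ℝ) ≤ x) (hsl : (s : ℝ) * l ≤ x) (hT : 0 < T)
    (hlT : Real.log T ≤ l / 5) (hhx : (h : ℝ) ≤ x) (hu : (u : ℝ) ≤ y / 100) (hyx : y ≤ x)
    (hN : N = (2 ^ h * (R * h * x)) ^ s * ((80 * (u : ℝ) + 1)
        * ((17 * 2 ^ h) ^ 4 * T ^ (96 * u)))) :
    N ≤ Real.exp (24 / 125 * (y * l) + (24 + Real.log R) * x) := by
  have hx0 : 0 < x := by linarith
  have hh0 : (0 : ℝ) < h := by exact_mod_cast hh
  have hR0 : 0 < R := by linarith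
  have f3 := fac3' h s hR hh hx0 hl (by linarith) hl0 hshx hsx hsl
  have hu0 : (0 : ℝ) ≤ u := Nat.cast_nonneg u
  have f4 : 80 * (u : ℝ) + 1 ≤ Real.exp x :=
    (Real.add_one_le_exp (80 * (u : ℝ))).trans (Real.exp_le_exp.2 (by linarith))
  have f5 := fac5' h (96 * u) (y := y) hT hx1 hl0 hlT hhx (by push_cast; linarith)
  have g1 := mul_le_mul f4 f5 (by positivity) (Real.exp_pos _).le
  have g2 := mul_le_mul f3 g1 (by positivity) (Real.exp_pos _).le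
  rw [hN]
  refine g2.trans (le_of_eq ?_)
  rw [← Real.exp_add, ← Real.exp_add]
  congr 1
  ring

end NumericB

open NumericA NumericB in
/-- (D) the numerical inequality -/
theorem numeric4 (r : ℕ) (hr : 2 ≤ r) (K C0 : ℝ) (hK : 1 ≤ K) (hC : 0 < C0) :
    ∃ X0 : ℕ, ∀ X h n s u : ℕ, X0 ≤ X → 1 ≤ h → (4 * r ^ 2 * h) ^ 5 ≤ X →
      X < (4 * r ^ 2 * (h + 1)) ^ 5 → 499 * X ≤ 500 * n → n ≤ X → u = X / (100 * r) →
      s < X / (500 * r * h) →
      ∀ w T Q N : ℝ, w = (K * (n.factorial : ℝ)) ^ (1 / (r : ℝ)) → T = 4 * (r : ℝ) ^ 2 * h →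
      Q = ((r : ℝ) ^ 2 * n) ^ (80 * u + s * h) * (n : ℝ) ^ h →
      N = (2 ^ h * (5 * (r : ℝ) ^ 2 * h * X)) ^ s * ((80 * (u : ℝ) + 1)
        * ((17 * 2 ^ h) ^ 4 * T ^ (96 * u))) →
      Q * (w * (2 * ((T ^ 5 * (250 * u) * 2 ^ h) ^ s / (T ^ 5) ^ (181 * u))
        + 8 * 2 ^ h * N * (4 * h / n) ^ (250 * u - s)) + 4 * C0 / w * N) < 1 := by
  have hr0 : (2 : ℝ) ≤ r := by exact_mod_cast hr
  have hr1 : 1 ≤ r := by omega
  have hrp : (0 : ℝ) < r := by linarith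
  have hr2 : (1 : ℝ) ≤ (r : ℝ) ^ 2 := one_le_pow₀ (by linarith)
  have hρ0 : 0 ≤ Real.log r := Real.log_nonneg (by linarith)
  have hR5 : (1 : ℝ) ≤ 5 * (r : ℝ) ^ 2 := by linarith
  have hq5 : 0 ≤ Real.log (5 * (r : ℝ) ^ 2) := Real.log_nonneg hR5
  have hlK : 0 ≤ Real.log K := Real.log_nonneg hK
  obtain ⟨c, hc⟩ : ∃ c : ℝ, c = 2 * Real.log r + Real.log K + Real.log (5 * (r : ℝ) ^ 2) +
    |Real.log (4 * C0)| + 240 := ⟨_, rfl⟩
  have hc0 : 0 ≤ c := by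
    have := abs_nonneg (Real.log (4 * C0))
    rw [hc]; linarith
  obtain ⟨X0, hX0⟩ := large4 (250 * r * (c + 2)) (8 * (r : ℝ) ^ 2) (by positivity)
  refine ⟨max X0 (100 * r), ?_⟩
  intro X h n s u hXX h1 h6 h7 hn1 hn2 hu hs w T Q N hw hT hQ hN
  obtain ⟨hX1, hM, hla⟩ := hX0 X (le_trans (le_max_left _ _) hXX)
  have hXr : 100 * r ≤ X := le_trans (le_max_right _ _) hXX
  have hu1 : 1 ≤ u := by
    rw [hu]
    exact (Nat.one_le_div_iff (by positivity)).2 hXr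
  obtain ⟨x, hx⟩ : ∃ x : ℝ, x = (X : ℝ) := ⟨_, rfl⟩
  obtain ⟨l, hl⟩ : ∃ l : ℝ, l = Real.log x := ⟨_, rfl⟩
  obtain ⟨a, ha⟩ : ∃ a : ℝ, a = x ^ (1 / 5 : ℝ) := ⟨_, rfl⟩
  rw [← hx] at hM hla
  rw [← hl] at hM hla
  rw [← ha] at hla
  have hx1 : 1 ≤ x := by rw [hx]; exact_mod_cast hX1
  have hx0 : 0 < x := by linarith
  have ha5 : a ^ 5 = x := by
    rw [ha, ← Real.rpow_natCast, ← Real.rpow_mul hx0.le]
    norm_num
  have ha0 : 0 ≤ a := by rw [ha]; positivity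
  have hl0 : 0 ≤ l := by rw [hl]; exact Real.log_nonneg hx1
  obtain ⟨y, hy⟩ : ∃ y : ℝ, y = x / r := ⟨_, rfl⟩
  have hry : (r : ℝ) * y = x := by
    rw [hy]; field_simp
  have hy0 : 0 < y := by rw [hy]; positivity
  have hyx : y ≤ x := by
    rw [hy]
    exact div_le_self hx0.le (by linarith)
  have hnpos : 1 ≤ n := by
    rcases Nat.eq_zero_or_pos n with h0 | h0
    · subst h0
      omega
    · exact h0
  obtain ⟨hu2, hu3, hsh⟩ := factsu hx hr1 hry hs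
  rw [← hu] at hu2 hu3
  obtain ⟨hlogn, hlogn2, hn1', hn2'⟩ := factsn hx hl hx1 hnpos hn1 hn2
  -- lower bound for `l`
  have hl1 : 1000 ≤ l := by
    have e1 : (2 : ℝ) * 2 ≤ r * (c + 2) := mul_le_mul hr0 (by linarith) (by norm_num) hrp.le
    have e2 : 250 * (r : ℝ) * (c + 2) = 250 * (r * (c + 2)) := by ring
    rw [e2] at hM
    linarith
  obtain ⟨hT0, hT5, hlogT, hlogT2, hlh, hhx, hhl, hlogh⟩ :=
    factsT hr1 hx hl hx1 ha0 ha5 hla hl0 h1 h6 h7 hT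
  have hs0 : (0 : ℝ) ≤ s := Nat.cast_nonneg s
  have hh1 : (1 : ℝ) ≤ h := by exact_mod_cast h1
  have hlx : l ≤ x := hlh.trans hhx
  have hshx : (s : ℝ) * h ≤ x := by linarith
  have hsx : (s : ℝ) ≤ x := by
    have : (s : ℝ) * 1 ≤ s * h := mul_le_mul_of_nonneg_left hh1 hs0
    linarith
  have hsl : (s : ℝ) * l ≤ x := by
    have : (s : ℝ) * l ≤ s * h := mul_le_mul_of_nonneg_left hlh hs0
    linarith
  have hMl : (2 * Real.log r + Real.log K + Real.log (5 * (r : ℝ) ^ 2) +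
      |Real.log (4 * C0)| + 240) * x + 2 * x ≤ 1 / 250 * (y * l) := by
    rw [← hc]
    have e1 : 250 * r * (c + 2) * y ≤ l * y := mul_le_mul_of_nonneg_right hM hy0.le
    have e2 : 250 * r * (c + 2) * y = 250 * (c + 2) * (r * y) := by ring
    rw [e2, hry] at e1
    linarith
  have hfac : (0 : ℝ) < (n.factorial : ℝ) := by exact_mod_cast Nat.factorial_pos n
  have hw0 : 0 < w := by
    rw [hw]
    have : 0 < K := by linarith
    positivity
  have hlw1 : Real.log w ≤ y * l + Real.log K * x := by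
    rw [hw]
    exact log_w_le r n hr1 hnpos hK hx1 hn2' hlogn hry
  have hw1 : w ≤ Real.exp (y * l + Real.log K * x) := le_exp_of_log hw0 hlw1
  have hlw2 : 499 / 500 * (y * l) - 2 * x ≤ Real.log w := by
    rw [hw]
    exact le_log_w' r n hr1 hnpos hK hyx hy0.le hn1' hn2' hlogn2 (by linarith) hry
  have hn0 : (0 : ℝ) < n := by exact_mod_cast hnpos
  have hh0 : (0 : ℝ) < h := by linarith
  have hQ1 : Q ≤ Real.exp (401 / 500 * (y * l) + 2 * (Real.log r * x) + x) := by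
    have he1 : ((80 * u + s * h : ℕ) : ℝ) ≤ 401 / 500 * y := by
      push_cast
      linarith
    have f1 := fac1' r n (80 * u + s * h) (by norm_num) (by norm_num) hr1 hnpos hy0.le hyx
      hlogn he1
    have f2 := fac2 n h hnpos hlogn hhl
    rw [hQ, Real.exp_add]
    exact mul_le_mul f1 f2 (by positivity) (Real.exp_pos _).le
  rw [← hx] at hN
  have hN1 := factN hR5 h1 hx1 hl hlogh hl0 hshx hsx hsl hT0 hlogT hhx hu2 hyx hN
  have hux : (u : ℝ) ≤ x := by linarith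
  have hA := partA h s u hT0 hT5 hl hx1 hlogT2 (by linarith) hux hu1 hu3 hyx hy0.le hlx
    hshx hsx hsl
  have hB : 0 < 4 * (h : ℝ) / n := by positivity
  have hvB : ((250 * u - s : ℕ) : ℝ) * Real.log (4 * h / n) ≤ -(2 * (y * l)) + 206 * x :=
    pow_bound4 (Nat.cast_nonneg _) (sub_cast4 u s) hu3 (factsB4 hnpos h1 hlogh hlogn2)
      (by linarith) hs0 hsl hyx hlx hx0.le
  have hBB := partB h (250 * u - s) hB hvB hhx hx1
  have hCC := partC hw0 (by positivity : 0 < 4 * C0) hlw2 hx1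
  have hu0 : (0 : ℝ) ≤ u := Nat.cast_nonneg u
  have hQ0 : 0 ≤ Q := by rw [hQ]; positivity
  have hN0 : 0 ≤ N := by rw [hN]; positivity
  have key := final4 hQ0 hw0.le (by positivity) (by positivity) hN0 (by positivity) hQ1 hw1 hA
    hBB hN1 hCC hx1 (by positivity) hρ0 hlK hq5 (abs_nonneg _) hMl
  refine lt_of_le_of_lt (le_of_eq ?_) key
  ring

end Pool.H78.Fac
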